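import Pool.Agent.W838.DC.Clm

/-! # DC2-CLM: the potential satisfies all the comparisons -/

set_option autoImplicit false

namespace Pool.Agent.W999.DC

open Pool.Agent.W838.DC Sys Tab

theorem mem_r6 {k : ℕ} : k ∈ r6 ↔ k < 6 := by
  simp [r6]; omega

theorem sgn_inj : ∀ g < 24, ∀ y < 24, (∀ k < 6, sgn g k = sgn y k) → g = y := by decide +kernel

/-! ### membership in the lists of goals -/

theorem goals_perp {Y g i j : ℕ} (hi : i < 6) (hj : j < 6) (hpi : psi Y g i = true)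
    (hpj : psi Y g j = true) (h : ipN i j = 1) : (6 * g + i, T g j, i, false) ∈ goalsAt Y g 1 := by
  have hij : i ≠ j := by
    rintro rfl
    have := ipN_self i hi
    omega
  unfold goalsAt
  rw [List.mem_flatMap]
  refine ⟨i, mem_r6.2 hi, ?_⟩
  rw [if_pos hpi, List.mem_flatMap]
  refine ⟨j, mem_r6.2 hj, ?_⟩
  simp [hij, hpj, h]

theorem goals_arr {Y g i j : ℕ} (hi : i < 6) (hj : j < 6) (h : arr Y g i j = true) :
    (6 * T g j + i, g, j, true) ∈ goalsAt Y g 1 ∧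
    (6 * g + j, T g i, addN i j, false) ∈ goalsAt Y g 1 ∧
    (6 * T g i + addN i j, g, j, false) ∈ goalsAt Y g 1 := by
  unfold arr at h
  simp only [Bool.and_eq_true, beq_iff_eq, Bool.not_eq_true'] at h
  obtain ⟨⟨⟨⟨hpi, hpj⟩, h0⟩, h1⟩, h2⟩ := h
  have hij : i ≠ j := by
    rintro rfl
    have := ipN_self i hi
    omega
  refine ⟨?_, ?_, ?_⟩
  all_goals
    unfold goalsAt
    rw [List.mem_flatMap]
    refine ⟨i, mem_r6.2 hi, ?_⟩
    rw [if_pos hpi, List.mem_flatMap]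
    refine ⟨j, mem_r6.2 hj, ?_⟩
    simp [hij, hpj, h0, h1, h2]

theorem goals_c6 {Y g i j : ℕ} (hi : i < 6) (hj : j < 6) (h : c6 Y g i j = true) :
    (6 * g + i, T g j, addN i j, false) ∈ goalsAt Y g 1 ∧
    (6 * T g j + addN i j, g, i, false) ∈ goalsAt Y g 1 ∧
    (6 * g + addN i j, T g j, i, false) ∈ goalsAt Y g 1 ∧
    (6 * T g j + i, g, addN i j, false) ∈ goalsAt Y g 1 ∧
    (6 * g + addN i j, g, i, false) ∈ goalsAt Y g 2 := by
  unfold c6 at h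
  simp only [Bool.and_eq_true, beq_iff_eq] at h
  obtain ⟨⟨⟨hpi, hpj⟩, h0⟩, h1⟩ := h
  have hij : i ≠ j := by
    rintro rfl
    have := ipN_self i hi
    omega
  refine ⟨?_, ?_, ?_, ?_, ?_⟩
  all_goals
    unfold goalsAt
    rw [List.mem_flatMap]
    refine ⟨i, mem_r6.2 hi, ?_⟩
    rw [if_pos hpi, List.mem_flatMap]
    refine ⟨j, mem_r6.2 hj, ?_⟩
    simp [hij, hpj, h0, h1]

theorem goals_dbl {Y g i j : ℕ} (hi : i < 6) (hj : j < 6) (h : dbl Y g i j = true) :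
    (6 * g + j, T g i, subN j i, false) ∈ goalsAt Y g 1 ∧
    (6 * T g i + subN j i, g, j, false) ∈ goalsAt Y g 1 ∧
    (6 * g + i, T g j, i, false) ∈ goalsAt Y g 2 ∧
    (6 * g + i, g, j, false) ∈ goalsAt Y g 2 := by
  have h' := h
  unfold dbl at h'
  simp only [Bool.and_eq_true, beq_iff_eq] at h'
  obtain ⟨⟨⟨⟨hpi, hpj⟩, h0⟩, -⟩, -⟩ := h'
  have hij : i ≠ j := by
    rintro rfl
    have := ipN_self i hi
    omega
  refine ⟨?_, ?_, ?_, ?_⟩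
  all_goals
    unfold goalsAt
    rw [List.mem_flatMap]
    refine ⟨i, mem_r6.2 hi, ?_⟩
    rw [if_pos hpi, List.mem_flatMap]
    refine ⟨j, mem_r6.2 hj, ?_⟩
    simp [hij, hpj, h0, h]

variable {V X : Type*} [AddCommGroup V] {σ : Sys V X}

theorem sval_eq (sl : Slice σ) (h : X → V → ℤ) {g k : ℕ} (hk : k < 6) :
    sval sl h (6 * g + k) = h (sl.e g) (sl.ρ k) := by
  unfold sval
  have h1 : (6 * g + k) / 6 = g := by omega
  have h2 : (6 * g + k) % 6 = k := by omega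
  rw [h1, h2]

theorem e_inj (sl : Slice σ) {g y : ℕ} (hg : g < 24) (hy : y < 24) (h : sl.e g = sl.e y) :
    g = y := by
  apply sgn_inj g hg y hy
  intro k hk
  have h1 := sl.esgn g hg k hk
  have h2 := sl.esgn y hy k hk
  rw [h] at h1
  rw [Bool.eq_iff_iff]
  exact h1.symm.trans h2

theorem reach_mu (h0 : S_CNT σ) {x y : X} (h : σ.Reach x y) : y = x ∨ σ.mu y < σ.mu x := by
  induction h with
  | refl => exact Or.inl rfl
  | tail _ hab ih =>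
    obtain ⟨a, ha, rfl⟩ := hab
    right
    have h1 := (h0 _ a ha.1).1
    rcases ih with h2 | h2
    · rw [h2] at h1 ⊢
      exact h1
    · omega

/-- everything available at the vertex `x` -/
structure Env (σ : Sys V X) (h : X → V → ℤ) (x : X) : Prop where
  h0 : S_CNT σ
  h1 : S_SLICE σ
  h2 : S_SLY σ
  h3 : S_TR σ
  h4 : S_CLMA σ
  pot : σ.IsPot h
  reg : σ.RegUp x
  IH : ∀ y, σ.RegUp y → σ.mu y < σ.mu x → σ.Claims h y

/-- a slice through `x` with the translated checks -/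
structure Ctx (h : X → V → ℤ) (x : X) (sl : Slice σ) (Y g : ℕ) : Prop where
  hg : g < 24
  hx : sl.e g = x
  hY : ∀ g < 24, (bit Y g = true ↔ σ.P (sl.e g))
  g1 : GoalsOK sl h Y g 1
  g2 : Claims1 σ h x → GoalsOK sl h Y g 2

variable {h : X → V → ℤ} {x : X}

theorem Env.ctx (E : Env σ h x) (hP : σ.P x) (sl : Slice σ) {g : ℕ} (hg : g < 24)
    (hx : sl.e g = x) : ∃ Y, Ctx h x sl Y g := by
  obtain ⟨Y, m, hYm⟩ := E.h2 sl
  have hbit : bit m g = true :=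
    hYm.reg g hg ((hYm.P g hg).2 (by rw [hx]; exact hP)) (by rw [hx]; exact E.reg)
  obtain ⟨g1, g2⟩ := E.h4 h E.pot sl Y m hYm g hg hbit (by
    intro y hy hyg hr
    rw [hx] at hr
    refine E.IH _ (E.reg.reach hr) ?_
    rcases reach_mu E.h0 hr with h5 | h5
    · exfalso
      apply hyg
      exact e_inj sl hy hg (by rw [h5, hx])
    · exact h5)
  rw [hx] at g2
  exact ⟨Y, hg, hx, hYm.P, g1, g2⟩

/-- finding a slice containing a plane of type `A_2` and `f` -/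
theorem Env.find (E : Env σ h x) (hP : σ.P x) {γ d1 d2 f : V} (hγ : γ ∈ σ.Φ) (hd1 : d1 ∈ σ.Φ)
    (hd2 : d2 ∈ σ.Φ) (hf : f ∈ σ.Φ) (hsum : d1 + d2 = -γ) (hγf : σ.ip γ f = -1)
    (hip : σ.ip d1 γ = -1) (n1 : d1 ≠ f) (n1' : d1 ≠ -f) (n2 : d2 ≠ f) (n2' : d2 ≠ -f) :
    ∃ (sl : Slice σ) (Y g : ℕ), Ctx h x sl Y g ∧ sl.In f ∧ sl.In γ ∧ sl.In d1 ∧ sl.In d2 := by
  have e1 : σ.ip d1 f + σ.ip d2 f = 1 := by
    rw [← σ.ip_add, hsum, σ.ip_neg, hγf]; rfl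
  have hd2' : d2 = -(γ + d1) := by
    rw [neg_add, ← hsum]; abel
  have hd1' : d1 = -(γ + d2) := by
    rw [neg_add, ← hsum]; abel
  have hip2 : σ.ip d2 γ = -1 := by
    rw [hd2', σ.ip_neg, σ.ip_add, σ.ip_self γ hγ, hip]; rfl
  have b1 := σ.ip_bd d1 hd1 f hf n1 n1'
  have b2 := σ.ip_bd d2 hd2 f hf n2 n2'
  by_cases hz : σ.ip d1 f = 0
  · obtain ⟨sl, ⟨g, hg, hgx⟩, i1, i2, i3⟩ := E.h1 d1 hd1 γ hγ f hf hip hγf hz x
    obtain ⟨Y, C⟩ := E.ctx hP sl hg hgx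
    refine ⟨sl, Y, g, C, i3, i2, i1, ?_⟩
    rw [hd2']
    exact (i2.add sl i1 (by rw [σ.ip_symm]; exact hip)).neg sl
  · have hz2 : σ.ip d2 f = 0 := by omega
    obtain ⟨sl, ⟨g, hg, hgx⟩, i1, i2, i3⟩ := E.h1 d2 hd2 γ hγ f hf hip2 hγf hz2 x
    obtain ⟨Y, C⟩ := E.ctx hP sl hg hgx
    refine ⟨sl, Y, g, C, i3, i2, ?_, i1⟩
    rw [hd1']
    exact (i2.add sl i1 (by rw [σ.ip_symm]; exact hip2)).neg sl

/-- using a goal -/
theorem use_goal (h3 : S_TR σ) {sl : Slice σ} {Y g stage : ℕ}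
    (hY : ∀ g < 24, (bit Y g = true ↔ σ.P (sl.e g))) (hG : GoalsOK sl h Y g stage)
    {a y γ : ℕ} {st : Bool} (hmem : (a, y, γ, st) ∈ goalsAt Y g stage) (hy : y < 24) (hγ : γ < 6)
    {f : V} (hA : σ.Arr (sl.e y) (sl.ρ γ) f) (hIn : sl.In f) :
    h (σ.r f (sl.e y)) (sl.ρ γ) ≤ sval sl h a ∧
      (st = true → h (σ.r f (sl.e y)) (sl.ρ γ) < sval sl h a) := by
  obtain ⟨l, hl, rfl⟩ := hIn.pos sl hA.2.1.1.2.1
  have h5 := (((h3 sl Y hY y hy).2 γ hγ).2.2.2 l hl).1.2 hA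
  have h6 := hG a y γ st hmem l hl h5
  rw [sl.eT y hy l hl]
  exact h6

theorem ip0 (sl : Slice σ) {i j : ℕ} (hi : i < 6) (hj : j < 6)
    (h : σ.ip (sl.ρ i) (sl.ρ j) = -1) : ipN i j = 0 := by
  have := sl.ipρ i hi j hj
  omega

theorem addN_lt6 (sl : Slice σ) {i j : ℕ} (hi : i < 6) (hj : j < 6)
    (h : σ.ip (sl.ρ i) (sl.ρ j) = -1) :
    addN i j < 6 ∧ sl.ρ i + sl.ρ j = sl.ρ (addN i j) := by
  have h1 := Tab.addN_lt i hi j hj (ip0 sl hi hj h)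
  exact ⟨h1, sl.addρ i hi j hj (by omega)⟩

theorem Ctx.arr (E : Env σ h x) {sl : Slice σ} {Y g : ℕ} (C : Ctx h x sl Y g) {z b : V}
    (hz : sl.In z) (hb : sl.In b) (hA : σ.Arr x z b) :
    (∀ f, sl.In f → σ.Arr x b f → h (σ.r f x) b < h (σ.r b x) z) ∧
    (∀ f, sl.In f → σ.Arr (σ.r z x) (z + b) f → h (σ.r f (σ.r z x)) (z + b) ≤ h x b) ∧
    (∀ f, sl.In f → σ.Arr x b f → h (σ.r f x) b ≤ h (σ.r z x) (z + b)) := by
  obtain ⟨i, hi, rfl⟩ := hz.pos sl hA.1.1.2.1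
  obtain ⟨j, hj, rfl⟩ := hb.pos sl hA.2.1.1.2.1
  obtain ⟨hg, rfl, hY, g1, -⟩ := C
  have ha := (((E.h3 sl Y hY g hg).2 i hi).2.2.2 j hj).1.2 hA
  obtain ⟨m1, m2, m3⟩ := goals_arr hi hj ha
  obtain ⟨hadd, hadd'⟩ := addN_lt6 sl hi hj hA.2.2.1
  have hTi := Tab.T_lt g hg i hi
  have hTj := Tab.T_lt g hg j hj
  refine ⟨fun f hf hAf => ?_, fun f hf hAf => ?_, fun f hf hAf => ?_⟩
  · have := (use_goal E.h3 hY g1 m1 hg hj hAf hf).2 rfl
    rw [sval_eq sl h hi, ← sl.eT g hg j hj] at this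
    rwa [sl.eT g hg j hj] at this ⊢
  · rw [hadd', sl.eT g hg i hi] at hAf ⊢
    have := (use_goal E.h3 hY g1 m2 hTi hadd hAf hf).1
    rwa [sval_eq sl h hj] at this
  · rw [hadd', sl.eT g hg i hi]
    have := (use_goal E.h3 hY g1 m3 hg hj hAf hf).1
    rwa [sval_eq sl h hadd] at this

theorem Ctx.c6 (E : Env σ h x) {sl : Slice σ} {Y g : ℕ} (C : Ctx h x sl Y g) {z b : V}
    (hz : sl.In z) (hb : sl.In b) (hA : σ.C6 x z b) :
    (∀ f, sl.In f → σ.Arr (σ.r b x) (z + b) f → h (σ.r f (σ.r b x)) (z + b) ≤ h x z) ∧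
    (∀ f, sl.In f → σ.Arr x z f → h (σ.r f x) z ≤ h (σ.r b x) (z + b)) ∧
    (∀ f, sl.In f → σ.Arr (σ.r b x) z f → h (σ.r f (σ.r b x)) z ≤ h x (z + b)) ∧
    (∀ f, sl.In f → σ.Arr x (z + b) f → h (σ.r f x) (z + b) ≤ h (σ.r b x) z) ∧
    (Claims1 σ h x → ∀ f, sl.In f → σ.Arr x z f → h (σ.r f x) z ≤ h x (z + b)) := by
  obtain ⟨i, hi, rfl⟩ := hz.pos sl hA.1.1.2.1
  obtain ⟨j, hj, rfl⟩ := hb.pos sl hA.2.1.1.2.1
  obtain ⟨hg, rfl, hY, g1, g2⟩ := C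
  have ha := (((E.h3 sl Y hY g hg).2 i hi).2.2.2 j hj).2.2.2 hA
  obtain ⟨m1, m2, m3, m4, m5⟩ := goals_c6 hi hj ha
  obtain ⟨hadd, hadd'⟩ := addN_lt6 sl hi hj hA.2.2.1
  have hTj := Tab.T_lt g hg j hj
  refine ⟨fun f hf hAf => ?_, fun f hf hAf => ?_, fun f hf hAf => ?_, fun f hf hAf => ?_,
    fun hc f hf hAf => ?_⟩
  · rw [hadd', sl.eT g hg j hj] at hAf ⊢
    have := (use_goal E.h3 hY g1 m1 hTj hadd hAf hf).1
    rwa [sval_eq sl h hi] at this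
  · rw [hadd', sl.eT g hg j hj]
    have := (use_goal E.h3 hY g1 m2 hg hi hAf hf).1
    rwa [sval_eq sl h hadd] at this
  · rw [sl.eT g hg j hj] at hAf ⊢
    rw [hadd']
    have := (use_goal E.h3 hY g1 m3 hTj hi hAf hf).1
    rwa [sval_eq sl h hadd] at this
  · rw [sl.eT g hg j hj]
    rw [hadd'] at hAf ⊢
    have := (use_goal E.h3 hY g1 m4 hg hadd hAf hf).1
    rwa [sval_eq sl h hi] at this
  · rw [hadd']
    have := (use_goal E.h3 hY (g2 hc) m5 hg hi hAf hf).1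
    rwa [sval_eq sl h hadd] at this

theorem Ctx.dbl (E : Env σ h x) {sl : Slice σ} {Y g : ℕ} (C : Ctx h x sl Y g) {z b : V}
    (hz : sl.In z) (hb : sl.In b) (hA : σ.Dbl x z b) :
    (∀ f, sl.In f → σ.Arr (σ.r z x) (b - z) f → h (σ.r f (σ.r z x)) (b - z) ≤ h x b) ∧
    (∀ f, sl.In f → σ.Arr x b f → h (σ.r f x) b ≤ h (σ.r z x) (b - z)) ∧
    (Claims1 σ h x → ∀ f, sl.In f → σ.Arr (σ.r b x) z f → h (σ.r f (σ.r b x)) z ≤ h x z) ∧
    (Claims1 σ h x → ∀ f, sl.In f → σ.Arr x b f → h (σ.r f x) b ≤ h x z) := by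
  obtain ⟨i, hi, rfl⟩ := hz.pos sl hA.1.1.2.1
  obtain ⟨j, hj, rfl⟩ := hb.pos sl hA.2.1.1.2.1
  obtain ⟨hg, rfl, hY, g1, g2⟩ := C
  have ha := (((E.h3 sl Y hY g hg).2 i hi).2.2.2 j hj).2.1.2 hA
  obtain ⟨m1, m2, m3, m4⟩ := goals_dbl hi hj ha
  have hsub7 : subN j i ≠ 7 := by
    unfold Tab.dbl at ha
    simp only [Bool.and_eq_true, bne_iff_ne] at ha
    exact ha.1.2
  have hsub := Tab.subN_lt j hj i hi hsub7
  have hsub' := sl.subρ j hj i hi hsub7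
  have hTi := Tab.T_lt g hg i hi
  have hTj := Tab.T_lt g hg j hj
  refine ⟨fun f hf hAf => ?_, fun f hf hAf => ?_, fun hc f hf hAf => ?_, fun hc f hf hAf => ?_⟩
  · rw [hsub', sl.eT g hg i hi] at hAf ⊢
    have := (use_goal E.h3 hY g1 m1 hTi hsub hAf hf).1
    rwa [sval_eq sl h hj] at this
  · rw [hsub', sl.eT g hg i hi]
    have := (use_goal E.h3 hY g1 m2 hg hj hAf hf).1
    rwa [sval_eq sl h hsub] at this
  · rw [sl.eT g hg j hj] at hAf ⊢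
    have := (use_goal E.h3 hY (g2 hc) m3 hTj hi hAf hf).1
    rwa [sval_eq sl h hi] at this
  · have := (use_goal E.h3 hY (g2 hc) m4 hg hj hAf hf).1
    rwa [sval_eq sl h hi] at this

theorem Ctx.perp (E : Env σ h x) {sl : Slice σ} {Y g : ℕ} (C : Ctx h x sl Y g) {z b : V}
    (hz : sl.In z) (hb : sl.In b) (hpz : σ.Psi x z) (hpb : σ.Psi x b) (hip : σ.ip z b = 0) :
    ∀ f, sl.In f → σ.Arr (σ.r b x) z f → h (σ.r f (σ.r b x)) z ≤ h x z := by
  obtain ⟨i, hi, rfl⟩ := hz.pos sl hpz.1.2.1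
  obtain ⟨j, hj, rfl⟩ := hb.pos sl hpb.1.2.1
  obtain ⟨hg, rfl, hY, g1, g2⟩ := C
  have hpi := ((E.h3 sl Y hY g hg).2 i hi).1.2 hpz
  have hpj := ((E.h3 sl Y hY g hg).2 j hj).1.2 hpb
  have hTj := Tab.T_lt g hg j hj
  have h1 : ipN i j = 1 := by
    have := sl.ipρ i hi j hj
    omega
  intro f hf hAf
  rw [sl.eT g hg j hj] at hAf ⊢
  have := (use_goal E.h3 hY g1 (goals_perp hi hj hpi hpj h1) hTj hi hAf hf).1
  rwa [sval_eq sl h hi] at this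

/-! ### elementary facts -/

theorem ne_neg {a b : V} (pa : 0 < σ.ht a) (pb : 0 < σ.ht b) : a ≠ -b := by
  rintro rfl
  rw [map_neg] at pa
  omega

theorem ht_add_pos {a b : V} (pa : 0 < σ.ht a) (pb : 0 < σ.ht b) : 0 < σ.ht (a + b) := by
  rw [map_add]; omega

/-- `z → b` and `b → z` cannot both hold -/
theorem Arr.asymm (E : Env σ h x) {z b : V} (hA : σ.Arr x z b) (hB : σ.Arr x b z) : False := by
  obtain ⟨⟨⟨zΦ, zp, zl⟩, Pz⟩, ⟨⟨bΦ, bp, bl⟩, Pb⟩, hip, hnP, hzb⟩ := hA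
  have hbz := hB.2.2.2.2
  have hsum : z + b ∈ σ.Φ := σ.add_mem zΦ bΦ hip
  have hip' : σ.ip b z = -1 := by rw [σ.ip_symm]; exact hip
  have hreg : σ.VReg (σ.r b x) := (E.reg.step (a := b) ⟨⟨bΦ, bp, bl⟩, Pb⟩).v
  have l1 : σ.lab (σ.r b x) z = σ.lab x b + σ.lab x z := σ.lab_r_neg bΦ x hip'
  have e1 : σ.ip b (z + b) = 1 := by rw [σ.ip_add_right, hip', σ.ip_self b bΦ]; rfl
  have l2 : σ.lab (σ.r b x) (z + b) = σ.lab x (z + b) - σ.lab x b := σ.lab_r_pos bΦ x e1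
  have q1 : σ.Psi (σ.r b x) z := ⟨⟨zΦ, zp, by rw [l1, map_add]; omega⟩, hzb⟩
  have e2 : σ.r (z + b) (σ.r b x) = σ.r b (σ.r z x) := by
    rw [σ.r_conj_neg bΦ zΦ hip' x, add_comm]
  have q2 : σ.Psi (σ.r b x) (z + b) := by
    refine ⟨⟨hsum, ht_add_pos zp bp, ?_⟩, ?_⟩
    · rw [l2, map_add]
      have : σ.lab x z + σ.lab x b - σ.lab x b = σ.lab x z := by abel
      rw [this]; exact zl
    · rw [e2]; exact hbz
  have e3 : σ.ip z (z + b) = 1 := by rw [σ.ip_add_right, hip, σ.ip_self z zΦ]; rfl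
  have q3 : σ.N (σ.r b x) (z + b - z) := by
    have : z + b - z = b := by abel
    rw [this]
    refine ⟨bΦ, bp, ?_⟩
    rw [σ.lab_r_self bΦ, map_neg]; omega
  have hP := hreg.pos z (z + b) q1 q2 e3 q3
  apply hnP
  rw [e2, σ.r_conj_neg zΦ bΦ hip] at hP
  rwa [σ.r_r zΦ] at hP

/-- the data of a plane with `ip z b = -1` -/
structure Pl (σ : Sys V X) (z b : V) : Prop where
  zm : z ∈ σ.Φ
  bm : b ∈ σ.Φ
  zp : 0 < σ.ht z
  bp : 0 < σ.ht b
  ip : σ.ip z b = -1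

theorem Pl.ip' {z b : V} (p : Pl σ z b) : σ.ip b z = -1 := by rw [σ.ip_symm]; exact p.ip

theorem Pl.sm {z b : V} (p : Pl σ z b) : z + b ∈ σ.Φ := σ.add_mem p.zm p.bm p.ip

theorem Pl.sp {z b : V} (p : Pl σ z b) : 0 < σ.ht (z + b) := ht_add_pos p.zp p.bp

theorem Pl.i1 {z b : V} (p : Pl σ z b) : σ.ip b (z + b) = 1 := by
  rw [σ.ip_add_right, p.ip', σ.ip_self b p.bm]; rfl

theorem Pl.i2 {z b : V} (p : Pl σ z b) : σ.ip z (z + b) = 1 := by
  rw [σ.ip_add_right, p.ip, σ.ip_self z p.zm]; rfl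

theorem Pl.i3 {z b : V} (p : Pl σ z b) : σ.ip (z + b) b = 1 := by
  rw [σ.ip_symm]; exact p.i1

theorem Pl.i4 {z b : V} (p : Pl σ z b) : σ.ip (z + b) z = 1 := by
  rw [σ.ip_symm]; exact p.i2

theorem Pl.symm {z b : V} (p : Pl σ z b) : Pl σ b z := ⟨p.bm, p.zm, p.bp, p.zp, p.ip'⟩

/-- the slice for `γ = b` -/
theorem Pl.findb (E : Env σ h x) (hP : σ.P x) {z b f : V} (p : Pl σ z b) (hf : f ∈ σ.Φ)
    (fp : 0 < σ.ht f) (hbf : σ.ip b f = -1) (hne : f ≠ z) :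
    ∃ (sl : Slice σ) (Y g : ℕ), Ctx h x sl Y g ∧ sl.In f ∧ sl.In z ∧ sl.In b := by
  obtain ⟨sl, Y, g, C, i1, i2, i3, -⟩ := E.find hP (γ := b) (d1 := z) (d2 := -(z + b)) p.bm p.zm
    (σ.neg_mem p.sm) hf (by abel) hbf p.ip (Ne.symm hne) (ne_neg p.zp fp)
    (by
      intro h5
      have h6 := ne_neg (σ := σ) fp p.sp
      exact h6 h5.symm)
    (by
      intro h5
      have h6 : z + b = f := neg_injective h5
      rw [← h6, p.i1] at hbf
      omega)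
  exact ⟨sl, Y, g, C, i1, i3, i2⟩

/-- the slice for `γ = z + b` -/
theorem Pl.finds (E : Env σ h x) (hP : σ.P x) {z b f : V} (p : Pl σ z b) (hf : f ∈ σ.Φ)
    (fp : 0 < σ.ht f) (hsf : σ.ip (z + b) f = -1) :
    ∃ (sl : Slice σ) (Y g : ℕ), Ctx h x sl Y g ∧ sl.In f ∧ sl.In z ∧ sl.In b := by
  obtain ⟨sl, Y, g, C, i1, -, i3, i4⟩ := E.find hP (γ := z + b) (d1 := -z) (d2 := -b) p.sm
    (σ.neg_mem p.zm) (σ.neg_mem p.bm) hf (by abel) hsf (by rw [σ.ip_neg, p.i2])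
    (by
      intro h5
      exact ne_neg (σ := σ) fp p.zp h5.symm)
    (by
      intro h5
      have h6 : z = f := neg_injective h5
      rw [← h6, p.i4] at hsf
      omega)
    (by
      intro h5
      exact ne_neg (σ := σ) fp p.bp h5.symm)
    (by
      intro h5
      have h6 : b = f := neg_injective h5
      rw [← h6, p.i3] at hsf
      omega)
  refine ⟨sl, Y, g, C, i1, ?_, ?_⟩
  · have := i3.neg sl; rwa [neg_neg] at this
  · have := i4.neg sl; rwa [neg_neg] at this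

theorem Arr.pl {z b : V} (hA : σ.Arr x z b) : Pl σ z b :=
  ⟨hA.1.1.1, hA.2.1.1.1, hA.1.1.2.1, hA.2.1.1.2.1, hA.2.2.1⟩

theorem C6.pl {z b : V} (hA : σ.C6 x z b) : Pl σ z b :=
  ⟨hA.1.1.1, hA.2.1.1.1, hA.1.1.2.1, hA.2.1.1.2.1, hA.2.2.1⟩

/-- the plane of `z ⇒ b` is that of `z` and `b - z` -/
theorem Dbl.pl {z b : V} (hA : σ.Dbl x z b) : Pl σ z (b - z) := by
  refine ⟨hA.1.1.1, hA.2.2.2.1, hA.1.1.2.1, hA.2.2.2.2.1, ?_⟩
  rw [σ.ip_sub_right, hA.2.2.1, σ.ip_self z hA.1.1.1]; rfl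

theorem Psi.P {z : V} (hz : σ.Psi x z) : σ.P x := σ.P_of_R hz.1 hz.2

theorem c_perp (E : Env σ h x) {z b : V} (hz : σ.Psi x z) (hb : σ.Psi x b)
    (hip : σ.ip z b = 0) : h (σ.r b x) z ≤ h x z := by
  have zΦ := hz.1.1
  have bΦ := hb.1.1
  have hip' : σ.ip b z = 0 := by rw [σ.ip_symm]; exact hip
  rcases E.pot.elim (σ.r b x) z with he | ⟨f, hf, he⟩
  · rw [he, σ.lab_r_zero bΦ x hip']
    exact E.pot.lab x z
  · rw [he]
    have fΦ := hf.2.1.1.1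
    have fp := hf.2.1.1.2.1
    have hzf : σ.ip z f = -1 := hf.2.2.1
    have n1 : f ≠ b := by
      rintro rfl
      omega
    have n2 : f ≠ -b := ne_neg fp hb.1.2.1
    have bd := σ.ip_bd f fΦ b bΦ n1 n2
    rcases (by omega : σ.ip f b = 0 ∨ σ.ip f b = -1 ∨ σ.ip f b = 1) with h5 | h5 | h5
    · -- the direct case
      have h5' : σ.ip b f = 0 := by rw [σ.ip_symm]; exact h5
      have lf : σ.lab (σ.r b x) f = σ.lab x f := σ.lab_r_zero bΦ x h5'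
      have hRf : σ.R x f := ⟨fΦ, fp, by rw [← lf]; exact hf.2.1.1.2.2⟩
      have lbf : σ.lab (σ.r f x) b = σ.lab x b := σ.lab_r_zero fΦ x h5
      have hRb : σ.R (σ.r f x) b := ⟨bΦ, hb.1.2.1, by rw [lbf]; exact hb.1.2.2⟩
      have Pbf : σ.P (σ.r b (σ.r f x)) := by
        rw [σ.r_comm bΦ fΦ h5']
        exact hf.2.1.2
      have hPsif : σ.Psi x f := ⟨hRf, σ.P_of_R hRb Pbf⟩
      have hsm : z + f ∈ σ.Φ := σ.add_mem zΦ fΦ hzf
      have hsp : 0 < σ.ht (z + f) := ht_add_pos hz.1.2.1 fp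
      have hsb : σ.ip (z + f) b = 0 := by rw [σ.ip_add, hip, h5]; rfl
      have hnP : ¬ σ.P (σ.r (z + f) x) := by
        intro hP
        apply hf.2.2.2.1
        refine E.reg.v.perp (z + f) b ⟨⟨hsm, hsp, ?_⟩, hP⟩ hb hsb
        rw [map_add]
        exact ht_add_pos hz.1.2.2 hRf.2.2
      have lzf : σ.lab (σ.r z (σ.r f x)) b = σ.lab x b := by
        rw [σ.lab_r_zero zΦ _ hip, lbf]
      have hRb2 : σ.R (σ.r z (σ.r f x)) b := ⟨bΦ, hb.1.2.1, by rw [lzf]; exact hb.1.2.2⟩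
      have Pzf : σ.P (σ.r z (σ.r f x)) := by
        refine σ.P_of_R hRb2 ?_
        rw [σ.r_comm bΦ zΦ hip', σ.r_comm bΦ fΦ h5']
        exact hf.2.2.2.2
      have hArr : σ.Arr x z f := ⟨hz, hPsif, hzf, hnP, Pzf⟩
      have s1 := E.pot.step x z f hArr
      have hzf' : σ.ip f z = -1 := by rw [σ.ip_symm]; exact hzf
      have lz : σ.lab (σ.r f x) z = σ.lab x f + σ.lab x z := σ.lab_r_neg fΦ x hzf'
      have q1 : σ.Psi (σ.r f x) z := by
        refine ⟨⟨zΦ, hz.1.2.1, ?_⟩, Pzf⟩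
        rw [lz]
        exact ht_add_pos hRf.2.2 hz.1.2.2
      have q2 : σ.Psi (σ.r f x) b := ⟨hRb, Pbf⟩
      have s2 := (E.IH (σ.r f x) (E.reg.step hPsif) (E.h0 x f hRf).1).perp z b q1 q2 hip
      rw [σ.r_comm fΦ bΦ h5]
      exact s2.trans s1
    · obtain ⟨sl, ⟨g, hg, hgx⟩, i1, i2, i3⟩ := E.h1 z zΦ f fΦ b bΦ hzf h5 hip x
      obtain ⟨Y, C⟩ := E.ctx (Psi.P hz) sl hg hgx
      exact C.perp E i1 i3 hz hb hip f i2 hf
    · obtain ⟨sl, ⟨g, hg, hgx⟩, i1, i2, i3⟩ := E.h1 z zΦ f fΦ (-b) (σ.neg_mem bΦ) hzf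
        (by rw [σ.ip_neg_right, h5]) (by rw [σ.ip_neg_right, hip]; rfl) x
      obtain ⟨Y, C⟩ := E.ctx (Psi.P hz) sl hg hgx
      have i3' := i3.neg sl
      rw [neg_neg] at i3'
      exact C.perp E i1 i3' hz hb hip f i2 hf

theorem c_P1 (E : Env σ h x) {z b : V} (hA : σ.Arr x z b) : h x b < h (σ.r b x) z := by
  have p := Arr.pl hA
  rcases E.pot.elim x b with he | ⟨f, hf, he⟩
  · rw [he]
    have h5 := E.pot.lab (σ.r b x) z
    rw [σ.lab_r_neg p.bm x p.ip', map_add] at h5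
    have := hA.1.1.2.2
    omega
  · rw [he]
    obtain ⟨sl, Y, g, C, i1, i2, i3⟩ := p.findb E (Psi.P hA.1) hf.2.1.1.1 hf.2.1.1.2.1 hf.2.2.1
      (by
        rintro rfl
        exact Arr.asymm E hA hf)
    exact (C.arr E i2 i3 hA).1 f i1 hf

theorem c_M1 (E : Env σ h x) {z b : V} (hA : σ.Arr x z b) : h x b = h (σ.r z x) (z + b) := by
  have p := Arr.pl hA
  have hl : σ.lab (σ.r z x) (z + b) = σ.lab x b := by
    rw [σ.lab_r_pos p.zm x p.i2, map_add]; abel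
  apply le_antisymm
  · rcases E.pot.elim x b with he | ⟨f, hf, he⟩
    · rw [he, ← hl]
      exact E.pot.lab _ _
    · rw [he]
      obtain ⟨sl, Y, g, C, i1, i2, i3⟩ := p.findb E (Psi.P hA.1) hf.2.1.1.1 hf.2.1.1.2.1
        hf.2.2.1 (by
          rintro rfl
          exact Arr.asymm E hA hf)
      exact (C.arr E i2 i3 hA).2.2 f i1 hf
  · rcases E.pot.elim (σ.r z x) (z + b) with he | ⟨f, hf, he⟩
    · rw [he, hl]
      exact E.pot.lab _ _
    · rw [he]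
      obtain ⟨sl, Y, g, C, i1, i2, i3⟩ := p.finds E (Psi.P hA.1) hf.2.1.1.1 hf.2.1.1.2.1
        hf.2.2.1
      exact (C.arr E i2 i3 hA).2.1 f i1 hf

theorem c_M3 (E : Env σ h x) {z b : V} (hA : σ.C6 x z b) : h x z = h (σ.r b x) (z + b) := by
  have p := C6.pl hA
  have hl : σ.lab (σ.r b x) (z + b) = σ.lab x z := by
    rw [σ.lab_r_pos p.bm x p.i1, map_add]; abel
  apply le_antisymm
  · rcases E.pot.elim x z with he | ⟨f, hf, he⟩
    · rw [he, ← hl]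
      exact E.pot.lab _ _
    · rw [he]
      obtain ⟨sl, Y, g, C, i1, i2, i3⟩ := p.symm.findb E (Psi.P hA.1) hf.2.1.1.1 hf.2.1.1.2.1
        hf.2.2.1 (by
          rintro rfl
          exact hf.2.2.2.1 hA.2.2.2)
      exact (C.c6 E i3 i2 hA).2.1 f i1 hf
  · rcases E.pot.elim (σ.r b x) (z + b) with he | ⟨f, hf, he⟩
    · rw [he, hl]
      exact E.pot.lab _ _
    · rw [he]
      obtain ⟨sl, Y, g, C, i1, i2, i3⟩ := p.finds E (Psi.P hA.1) hf.2.1.1.1 hf.2.1.1.2.1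
        hf.2.2.1
      exact (C.c6 E i2 i3 hA).1 f i1 hf

theorem c_M4 (E : Env σ h x) {z b : V} (hA : σ.C6 x z b) : h x (z + b) = h (σ.r b x) z := by
  have p := C6.pl hA
  have hl : σ.lab (σ.r b x) z = σ.lab x (z + b) := by
    rw [σ.lab_r_neg p.bm x p.ip', map_add]; abel
  apply le_antisymm
  · rcases E.pot.elim x (z + b) with he | ⟨f, hf, he⟩
    · rw [he, ← hl]
      exact E.pot.lab _ _
    · rw [he]
      obtain ⟨sl, Y, g, C, i1, i2, i3⟩ := p.finds E (Psi.P hA.1) hf.2.1.1.1 hf.2.1.1.2.1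
        hf.2.2.1
      exact (C.c6 E i2 i3 hA).2.2.2.1 f i1 hf
  · rcases E.pot.elim (σ.r b x) z with he | ⟨f, hf, he⟩
    · rw [he, hl]
      exact E.pot.lab _ _
    · rw [he]
      obtain ⟨sl, Y, g, C, i1, i2, i3⟩ := p.symm.findb E (Psi.P hA.1) hf.2.1.1.1 hf.2.1.1.2.1
        hf.2.2.1 (by
          rintro rfl
          have h5 := hf.2.1.1.2.2
          rw [σ.lab_r_self p.bm, map_neg] at h5
          have h6 := hA.2.1.1.2.2
          omega)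
      exact (C.c6 E i3 i2 hA).2.2.1 f i1 hf

theorem c_M2 (E : Env σ h x) {z b : V} (hA : σ.Dbl x z b) : h x b = h (σ.r z x) (b - z) := by
  have p := Dbl.pl hA
  have hb : z + (b - z) = b := by abel
  have hl : σ.lab (σ.r z x) (b - z) = σ.lab x b := by
    rw [σ.lab_r_neg p.zm x p.ip, map_sub]; abel
  apply le_antisymm
  · rcases E.pot.elim x b with he | ⟨f, hf, he⟩
    · rw [he, ← hl]
      exact E.pot.lab _ _
    · rw [he]
      obtain ⟨sl, Y, g, C, i1, i2, i3⟩ := p.finds E (Psi.P hA.1) hf.2.1.1.1 hf.2.1.1.2.1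
        (by rw [hb]; exact hf.2.2.1)
      have i4 := i2.add sl i3 p.ip
      rw [hb] at i4
      exact (C.dbl E i2 i4 hA).2.1 f i1 hf
  · rcases E.pot.elim (σ.r z x) (b - z) with he | ⟨f, hf, he⟩
    · rw [he, hl]
      exact E.pot.lab _ _
    · rw [he]
      obtain ⟨sl, Y, g, C, i1, i2, i3⟩ := p.findb E (Psi.P hA.1) hf.2.1.1.1 hf.2.1.1.2.1
        hf.2.2.1 (by
          rintro rfl
          have h5 := hf.2.1.1.2.2
          rw [σ.lab_r_self p.zm, map_neg] at h5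
          have h6 := hA.1.1.2.2
          omega)
      have i4 := i2.add sl i3 p.ip
      rw [hb] at i4
      exact (C.dbl E i2 i4 hA).1 f i1 hf

theorem c_D2 (E : Env σ h x) (hc : Claims1 σ h x) {z b : V} (hA : σ.Dbl x z b) :
    h (σ.r b x) z ≤ h x z := by
  have p := Dbl.pl hA
  have hb : z + (b - z) = b := by abel
  have hbz : σ.ip b z = 1 := by rw [σ.ip_symm]; exact hA.2.2.1
  rcases E.pot.elim (σ.r b x) z with he | ⟨f, hf, he⟩
  · rw [he, σ.lab_r_pos hA.2.1.1.1 x hbz, map_sub]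
    have h5 := E.pot.lab x z
    have h6 := hA.2.1.1.2.2
    omega
  · rw [he]
    obtain ⟨sl, Y, g, C, i1, i2, i3⟩ := p.symm.findb E (Psi.P hA.1) hf.2.1.1.1 hf.2.1.1.2.1
      hf.2.2.1 (by
        rintro rfl
        have h5 := hf.2.1.1.2.2
        have e1 : σ.ip b (b - z) = 1 := by
          rw [σ.ip_sub_right, σ.ip_self b hA.2.1.1.1, hbz]; rfl
        rw [σ.lab_r_pos hA.2.1.1.1 x e1, map_sub, map_sub, map_sub] at h5
        have h6 := hA.1.1.2.2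
        omega)
    have i4 := i3.add sl i2 p.ip
    rw [hb] at i4
    exact (C.dbl E i3 i4 hA).2.2.1 hc f i1 hf

theorem c_P2 (E : Env σ h x) (hc : Claims1 σ h x) {z b : V} (hA : σ.Dbl x z b) :
    h x b ≤ h x z := by
  have p := Dbl.pl hA
  have hb : z + (b - z) = b := by abel
  rcases E.pot.elim x b with he | ⟨f, hf, he⟩
  · rw [he]
    have h5 := E.pot.lab x z
    have h6 := hA.2.2.2.2.2
    rw [map_sub, map_sub] at h6
    omega
  · rw [he]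
    obtain ⟨sl, Y, g, C, i1, i2, i3⟩ := p.finds E (Psi.P hA.1) hf.2.1.1.1 hf.2.1.1.2.1
      (by rw [hb]; exact hf.2.2.1)
    have i4 := i2.add sl i3 p.ip
    rw [hb] at i4
    exact (C.dbl E i2 i4 hA).2.2.2 hc f i1 hf

theorem c_C9 (E : Env σ h x) (hc : Claims1 σ h x) {z b : V} (hA : σ.C6 x z b) :
    h x z ≤ h x (z + b) := by
  have p := C6.pl hA
  rcases E.pot.elim x z with he | ⟨f, hf, he⟩
  · rw [he]
    have h5 := E.pot.lab x (z + b)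
    rw [map_add, map_add] at h5
    have h6 := hA.2.1.1.2.2
    omega
  · rw [he]
    obtain ⟨sl, Y, g, C, i1, i2, i3⟩ := p.symm.findb E (Psi.P hA.1) hf.2.1.1.1 hf.2.1.1.2.1
      hf.2.2.1 (by
        rintro rfl
        exact hf.2.2.2.1 hA.2.2.2)
    exact (C.c6 E i3 i2 hA).2.2.2.2 hc f i1 hf

theorem Env.claims1 (E : Env σ h x) : Claims1 σ h x where
  perp := fun _ _ hz hb hip => c_perp E hz hb hip
  P1 := fun _ _ hA => c_P1 E hA
  M1 := fun _ _ hA => c_M1 E hA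
  M2 := fun _ _ hA => c_M2 E hA
  M3 := fun _ _ hA => c_M3 E hA
  M4 := fun _ _ hA => c_M4 E hA

theorem Env.claims (E : Env σ h x) : σ.Claims h x where
  perp := fun _ _ hz hb hip => c_perp E hz hb hip
  P1 := fun _ _ hA => c_P1 E hA
  M1 := fun _ _ hA => c_M1 E hA
  D2 := fun _ _ hA => c_D2 E E.claims1 hA
  P2 := fun _ _ hA => c_P2 E E.claims1 hA
  M2 := fun _ _ hA => c_M2 E hA
  M3 := fun _ _ hA => c_M3 E hA
  M4 := fun _ _ hA => c_M4 E hA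
  C9 := fun _ _ hA => c_C9 E E.claims1 hA

/-- **CLM** -/
theorem clm (σ : Sys V X) (h0 : S_CNT σ) (h1 : S_SLICE σ) (h2 : S_SLY σ) (h3 : S_TR σ)
    (h4 : S_CLMA σ) : S_CLM σ := by
  intro h hpot
  have main : ∀ n : ℕ, ∀ x, σ.mu x = n → σ.RegUp x → σ.Claims h x := by
    intro n
    induction n using Nat.strong_induction_on with
    | _ n ih =>
      intro x hx hreg
      exact Env.claims ⟨h0, h1, h2, h3, h4, hpot, hreg,
        fun y hy hlt => ih (σ.mu y) (by omega) y rfl hy⟩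
  exact fun x hreg => main _ x rfl hreg

end Pool.Agent.W999.DC
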